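import Mathlib

/-!
# MP_451208_an: a topologically mixing subshift over `ℤ` which is not surjunctive

The alphabet is `Fin 3 → Bool`: a configuration consists of three sets `P 0, P 1, P 2` of integers.
The map `τ` moves `P j` to the right by `j`.  The subshift `X` consists of the configurations which
never have a coincidence in the future: there are no integers `c` and `s ≥ 1` with
`c - s * j ∈ P j` for `j = 0, 1, 2`.  The map `τ` sends `X` onto the set of the configurations in
`X` which have no coincidence at the present time either.  The subshift is topologically mixing: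
if two of the three points of a coincidence lie in one window, then so does nearly the third one.
-/

set_option autoImplicit false

namespace Pool.Agent.Results.MP_451208_an.MixingNotSurjunctive

/-- The shift `σ(x)_n = x_{n+1}`. -/
def shift {A : Type} (x : ℤ → A) : ℤ → A := fun n => x (n + 1)

/-- `X` is a subshift: closed, with `σ(X) = X`. -/
def IsSubshift {A : Type} [TopologicalSpace A] (X : Set (ℤ → A)) : Prop :=
  IsClosed X ∧ shift '' X = X

/-- `τ : X → X` is a cellular automaton: continuous, and it commutes with the shift. -/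
def IsCellularAutomaton {A : Type} [TopologicalSpace A] (X : Set (ℤ → A)) (τ : X → X) : Prop :=
  Continuous τ ∧ ∀ x y : X, (y : ℤ → A) = shift x → (τ y : ℤ → A) = shift (τ x)

/-- `X` is surjunctive: every injective cellular automaton on `X` is surjective. -/
def Surjunctive {A : Type} [TopologicalSpace A] (X : Set (ℤ → A)) : Prop :=
  ∀ τ : X → X, IsCellularAutomaton X τ → Function.Injective τ → Function.Surjective τ

/-- `X` is topologically mixing: for all nonempty open `U, V ⊆ X` there is `N` such that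
`σ^n(U) ∩ V ≠ ∅` for all `n ≥ N`. -/
def TopologicallyMixing {A : Type} [TopologicalSpace A] (X : Set (ℤ → A)) : Prop :=
  ∀ U V : Set X, IsOpen U → IsOpen V → U.Nonempty → V.Nonempty →
    ∃ N : ℕ, ∀ n ≥ N, ∃ x ∈ U, ∃ y ∈ V, (y : ℤ → A) = shift^[n] (x : ℤ → A)

/-- The subshift: no coincidences in the future. -/
def NF : Set (ℤ → (Fin 3 → Bool)) :=
  {x | ∀ c s : ℤ, 1 ≤ s → ¬ ∀ j : Fin 3, x (c - s * (j : ℕ)) j = true}

theorem iter_shift {A : Type} (n : ℕ) (x : ℤ → A) (m : ℤ) : (shift^[n] x) m = x (m + n) := by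
  induction n generalizing m with
  | zero => simp
  | succ n ih =>
    rw [Function.iterate_succ_apply', shift, ih]
    congr 1
    push_cast
    ring

theorem mem_shift {x : ℤ → (Fin 3 → Bool)} (k : ℤ) (hx : x ∈ NF) : (fun n => x (n + k)) ∈ NF := by
  intro c s hs h
  refine hx (c + k) s hs fun j => ?_
  have := h j
  rwa [show c + k - s * ((j : ℕ) : ℤ) = c - s * ((j : ℕ) : ℤ) + k by ring]

theorem isSubshift_NF : IsSubshift NF := by
  constructor
  · have h : NF = ⋂ (c : ℤ) (s : ℤ) (_ : 1 ≤ s),
        (⋂ j : Fin 3, {x : ℤ → (Fin 3 → Bool) | x (c - s * (j : ℕ)) j = true})ᶜ := by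
      ext x
      simp [NF]
    rw [h]
    refine isClosed_iInter fun c => isClosed_iInter fun s => isClosed_iInter fun _ => ?_
    rw [isClosed_compl_iff]
    refine isOpen_iInter_of_finite fun j => ?_
    have hc : Continuous fun x : ℤ → (Fin 3 → Bool) => x (c - s * (j : ℕ)) j := by fun_prop
    exact (isOpen_discrete {true}).preimage hc
  · ext x
    constructor
    · rintro ⟨y, hy, rfl⟩
      exact mem_shift 1 hy
    · intro hx
      refine ⟨fun n => x (n + (-1)), mem_shift (-1) hx, ?_⟩
      funext n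
      simp [shift]

theorem mixing_NF : TopologicallyMixing NF := by
  intro U V hU hV ⟨x, hx⟩ ⟨y, hy⟩
  obtain ⟨O, hO, rfl⟩ := isOpen_induced_iff.1 hU
  obtain ⟨O', hO', rfl⟩ := isOpen_induced_iff.1 hV
  obtain ⟨I, u, hu1, hu2⟩ := isOpen_pi_iff.1 hO x.1 hx
  obtain ⟨J, v, hv1, hv2⟩ := isOpen_pi_iff.1 hO' y.1 hy
  obtain ⟨M, hM⟩ : ∃ M : ℕ, (∀ i ∈ I, -(M : ℤ) ≤ i ∧ i ≤ M) ∧ ∀ i ∈ J, -(M : ℤ) ≤ i ∧ i ≤ M := by
    refine ⟨(I ∪ J).sup Int.natAbs, ?_, ?_⟩
    · intro i hi
      have : Int.natAbs i ≤ (I ∪ J).sup Int.natAbs :=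
        Finset.le_sup (f := Int.natAbs) (Finset.mem_union_left _ hi)
      omega
    · intro i hi
      have : Int.natAbs i ≤ (I ∪ J).sup Int.natAbs :=
        Finset.le_sup (f := Int.natAbs) (Finset.mem_union_right _ hi)
      omega
  refine ⟨4 * M + 1, fun n hn => ?_⟩
  let z : ℤ → (Fin 3 → Bool) := fun i =>
    if -(M : ℤ) ≤ i ∧ i ≤ M then x.1 i
    else if (n : ℤ) - M ≤ i ∧ i ≤ n + M then y.1 (i - n) else fun _ => false
  have hz : z ∈ NF := by
    intro c s hs h
    have key : ∀ j : Fin 3, (-(M : ℤ) ≤ c - s * (j : ℕ) ∧ c - s * (j : ℕ) ≤ M ∧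
        x.1 (c - s * (j : ℕ)) j = true) ∨ ((n : ℤ) - M ≤ c - s * (j : ℕ) ∧
        c - s * (j : ℕ) ≤ n + M ∧ y.1 (c - n - s * (j : ℕ)) j = true) := by
      intro j
      have hj := h j
      simp only [z] at hj
      split_ifs at hj with h1 h2
      · exact Or.inl ⟨h1.1, h1.2, hj⟩
      · refine Or.inr ⟨h2.1, h2.2, ?_⟩
        rwa [show c - n - s * ((j : ℕ) : ℤ) = c - s * ((j : ℕ) : ℤ) - n by ring]
    have k0 := key 0
    have k1 := key 1
    have k2 := key 2
    simp only [Fin.val_zero, Fin.val_one, Fin.val_two, Nat.cast_zero, Nat.cast_one,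
      Nat.cast_ofNat, mul_zero, mul_one, sub_zero] at k0 k1 k2
    rcases k0 with ⟨a0, b0, e0⟩ | ⟨a0, b0, e0⟩ <;> rcases k1 with ⟨a1, b1, e1⟩ | ⟨a1, b1, e1⟩ <;>
      rcases k2 with ⟨a2, b2, e2⟩ | ⟨a2, b2, e2⟩ <;> first
      | omega
      | skip
    · refine x.2 c s hs fun j => ?_
      fin_cases j <;> simpa using by assumption
    · refine y.2 (c - n) s hs fun j => ?_
      fin_cases j <;> simpa using by assumption
  refine ⟨⟨z, hz⟩, ?_, ⟨fun i => z (i + n), mem_shift n hz⟩, ?_, ?_⟩
  · refine hu2 fun i hi => ?_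
    have h1 := hM.1 i hi
    have h2 : z i = x.1 i := if_pos h1
    show z i ∈ u i
    rw [h2]
    exact (hu1 i hi).2
  · refine hv2 fun i hi => ?_
    have h1 := hM.2 i hi
    have h2 : z (i + n) = y.1 i := by
      simp only [z]
      rw [if_neg (by omega), if_pos (by omega), add_sub_cancel_right]
    show z (i + n) ∈ v i
    rw [h2]
    exact (hv1 i hi).2
  · funext i
    exact (iter_shift n z i).symm

/-- The cellular automaton: the `j`-th track moves to the right by `j`. -/
def move (x : ℤ → (Fin 3 → Bool)) : ℤ → (Fin 3 → Bool) := fun n j => x (n - (j : ℕ)) j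

theorem move_event {x : ℤ → (Fin 3 → Bool)} (hx : x ∈ NF) (c s : ℤ) (hs : 0 ≤ s) :
    ¬ ∀ j : Fin 3, move x (c - s * (j : ℕ)) j = true := by
  intro h
  refine hx c (s + 1) (by omega) fun j => ?_
  have := h j
  rw [move] at this
  rwa [show c - (s + 1) * ((j : ℕ) : ℤ) = c - s * ((j : ℕ) : ℤ) - (j : ℕ) by ring]

theorem not_surjunctive_NF : ¬ Surjunctive NF := by
  intro h
  let τ : NF → NF := fun x => ⟨move x.1, fun c s hs => move_event x.2 c s (by omega)⟩
  have h1 : IsCellularAutomaton NF τ := by
    constructor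
    · refine Continuous.subtype_mk ?_ _
      unfold move
      refine continuous_pi fun n => continuous_pi fun j => ?_
      exact (continuous_apply j).comp ((continuous_apply _).comp continuous_subtype_val)
    · intro x y hxy
      funext n
      funext j
      show y.1 (n - (j : ℕ)) j = x.1 (n + 1 - (j : ℕ)) j
      rw [hxy]
      show x.1 (n - (j : ℕ) + 1) j = _
      rw [show n - ((j : ℕ) : ℤ) + 1 = n + 1 - (j : ℕ) by ring]
  have h2 : Function.Injective τ := by
    intro x y hxy
    have h3 : move x.1 = move y.1 := congrArg Subtype.val hxy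
    refine Subtype.ext ?_
    funext n
    funext j
    have h4 := congrFun (congrFun h3 (n + (j : ℕ))) j
    simpa [move] using h4
  have hy : (fun (n : ℤ) (_ : Fin 3) => decide (n = 0)) ∈ NF := by
    intro c s hs h
    have h0 := h 0
    have h1 := h 1
    simp at h0 h1
    omega
  obtain ⟨x, hx⟩ := h τ h1 h2 ⟨_, hy⟩
  have h3 : move x.1 = fun (n : ℤ) (_ : Fin 3) => decide (n = 0) := congrArg Subtype.val hx
  refine move_event x.2 0 0 le_rfl fun j => ?_
  rw [h3]
  simp

/-- There are a finite alphabet and a topologically mixing subshift over `ℤ` with an injective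
cellular automaton which is not surjective. -/
theorem result : ∃ (A : Type) (_ : Fintype A) (_ : TopologicalSpace A) (_ : DiscreteTopology A)
    (X : Set (ℤ → A)), IsSubshift X ∧ TopologicallyMixing X ∧ ¬ Surjunctive X :=
  ⟨Fin 3 → Bool, inferInstance, inferInstance, inferInstance, NF, isSubshift_NF, mixing_NF,
    not_surjunctive_NF⟩

end Pool.Agent.Results.MP_451208_an.MixingNotSurjunctive
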